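import Pool.Agent.H845.AC.Rat

set_option autoImplicit false

/-!
# The period conjecture for cycles of all codimensions on products of abelian varieties of
# `GL₂`-type, or of abelian surfaces, with abelian varieties with complex multiplication

Let `A` be an abelian variety over the field `ℚ̄` of algebraic numbers. A de Rham-Betti class in
`H^{2k}(A)(k)` is an alternating form `φ` with rational values in `2 k` variables in `H_1(A, ℚ)` such
that `(2 π i) ^ k φ` is a combination with algebraic coefficients of the products of the elements of
`H^1_dR(A / ℚ̄)`. Nothing is assumed about periods: `AbVar` is the description of an abelian variety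
over `ℚ̄` by theta functions (see `Pool/Graph/R_seed8/Y102/AVDefs.lean`, where it is explained why
every abelian variety has it).

Up to isogeny `A` is a product `A₀ × A₁`, where `A₀` has no simple factors of type IV and all simple
factors of `A₁` are of type IV (in the classification of Albert). The rational homology of `A₁` is the
span `V₁` of the images of the central endomorphisms of `A` which are skew-symmetric for the
polarization (`typeIVPart`), and the rational homology of `A₀` is the space `V₀` of the vectors which
they annihilate (`IsInPartWithoutTypeIV`).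

**Theorem.** Assume that `A₁` has complex multiplication and dimension at most four, and that

* `A₀` has an endomorphism `P` such that `V₀` is generated by two elements over `ℚ[P]`, that is, the
  eigenspaces of `P` on `H_1(A₀, ℂ)` have dimension at most two (so `A₀` is a product of abelian
  varieties of `GL₂`-type: powers of elliptic curves, of abelian surfaces with quaternionic
  multiplication, of abelian varieties with multiplication by a totally real field of degree equal to
  the dimension; with any number of factors, and any exponents), or
* `V₀` is generated by four elements over the centre of `End(A)`, that is, the eigenspaces of the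
  centre on `H_1(A₀, ℂ)` have dimension at most four (for example `A₀` is a product of pairwise
  non-isogenous simple abelian surfaces without complex multiplication, of elliptic curves and of
  squares of elliptic curves; the number of the factors is arbitrary).

Then for **all** `k` every de Rham-Betti class `φ` in `H^{2k}(A)(k)` is the sum of two de Rham-Betti
classes `φ₀` and `w` such that

* `φ₀` is a Hodge class, and it is annihilated by all endomorphisms `X` of `H_1(A, ℚ)` which commute
  with the endomorphisms of `A` and are skew-symmetric for the polarization (the Lie algebra of the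
  Lefschetz group; the forms with this property are the combinations of products of divisor classes, by
  the theorem of Milne, so `φ₀` is algebraic);
* `w = 0`, or `A₁` has dimension four and the centre of `End(A₁) ⊗ ℚ` contains an imaginary
  quadratic field `K = ℚ(P)`, `P² = - r`, such that `w` is in the product of `H^{2k - 4}(A₀)` and of
  the space of the Weil classes of `A₁` for `K`: `w` is linear over `P` in exactly four variables in
  `H_1(A₁)`, the others are in `H_1(A₀)` (`IsWeilInFourVariables`). Moreover `w` is a Hodge class if
  `K` acts on the tangent space of `A₁` with the signature `(2, 2)`.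

So `GPC ^ k (A)` holds for all `k` for `A = A₀ × A₁` if `A₁` has complex multiplication and
`dim A₁ ≤ 3`, for all CM types and all CM fields, and if `dim A₁ = 4` and the centre of
`End(A₁) ⊗ ℚ` contains no imaginary quadratic field. In particular it holds for all `k` for all
products of powers of elliptic curves without complex multiplication with an elliptic curve, an
abelian surface or an abelian threefold with complex multiplication. The dimension of `A` is not
bounded.

## Proof

By the theorem of Schneider and Lang the Lie algebra `𝔥` of the endomorphisms that annihilate all de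
Rham-Betti classes acts semisimply on `V = H_1(A, ℚ)` and has the commutant `End(A)`. The space
`V ⊗ ℂ` is the sum of the eigenspaces `U_χ` of the space `S` of the central skew-symmetric
endomorphisms. On `U_χ`, `χ ≠ 0`, the Lie algebra acts by the scalars `χ`, and the restrictions of
different nonzero characters to `𝔥 ∩ S` are different and not zero. Let `φ` be a form in `2 k`
variables annihilated by `𝔥`, with a nonzero value on `2 k` eigenvectors. The sum of the characters is
zero on `𝔥 ∩ S`. We remove pairs of opposite characters. As `dim A₁ ≤ 4` at most four characters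
remain. One or two characters can not remain. If three characters remain then the number of variables
in `U_0` is odd, and the form in these variables is annihilated by `𝔥`. The assumptions about `A₀` and
the representation theory of `𝔥` on `U_0` (the theorem about representations with small isotypic
components of an earlier run, and the independence of the representations of dimension two) imply that
it is annihilated by all skew-symmetric elements in the double commutant of `𝔥`, in particular by the
complex structure, which has the eigenvalues `± i`, so it is zero. If four characters remain then we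
are in the exceptional case, and the sum of these four characters is a rational function on `S` up to
a factor; the trace form gives the endomorphism `P`. Then `w` is the multiple `(16 c²)⁻¹ P P φ` of the
second derivative of `φ`, where `c² = - r` is the square of the eigenvalues of `P`. The form `φ₀` is
annihilated by `𝔥` and `S`, and all its components in the variables in `U_0` are annihilated by `𝔥`.
-/

open Module Pool.Agent.Y102 Pool.Agent.W516.DR Pool.Agent.H204R3.GP TensorProduct

noncomputable section

namespace Pool.Agent.Results.MP_bf54cf_ag.AllCodimensions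

variable {g : ℕ} (A : AbVar g)

/-- The alternating forms in `2 k` variables in the rational homology: the elements of
`H^{2k}(A, ℚ)`. -/
abbrev Form (k : ℕ) : Type := A.H1 [⋀^Fin k × Fin 2]→ₗ[ℚ] ℚ

/-- `φ` is a de Rham-Betti class in `H^{2k}(A)(k)`. -/
def IsDRB {k : ℕ} (φ : Form A k) : Prop :=
  IsDeRhamBettiForm QBar A.dR (2 * Real.pi * Complex.I) k φ.toMultilinearMap

/-- `φ` is a Hodge class in `H^{2k}(A)(k)`. -/
def IsHodge {k : ℕ} (φ : Form A k) : Prop :=
  IsHodgeTensor (A.per : A.H1 →+ (Fin g → ℂ)) φ.toMultilinearMap

/-- The endomorphisms of `A`, up to isogeny: the endomorphisms of `H_1(A, ℚ)` which respect the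
de Rham cohomology over the field of algebraic numbers. -/
def IsEndomorphism (P : Module.End ℚ A.H1) : Prop := IsDeRhamBettiEnd QBar A.dR P

/-- `X` commutes with the endomorphisms of `A`. -/
def Commutes (X : Module.End ℚ A.H1) : Prop := ∀ Q, IsEndomorphism A Q → X * Q = Q * X

/-- `P` is in the centre of the algebra of the endomorphisms of `A`. -/
def IsCentral (P : Module.End ℚ A.H1) : Prop := IsEndomorphism A P ∧ Commutes A P

/-- `X` is skew-symmetric for the polarization `A.om`. -/
def IsSkewSymmetric (X : Module.End ℚ A.H1) : Prop :=
  ∀ u v, A.om (X u) v + A.om u (X v) = 0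

/-- The rational homology of the part of type IV: the span of the images of the central
endomorphisms which are skew-symmetric for the polarization. -/
def typeIVPart : Submodule ℚ A.H1 :=
  Submodule.span ℚ {v | ∃ R, IsCentral A R ∧ IsSkewSymmetric A R ∧ ∃ u, v = R u}

/-- The simple factors of type IV have complex multiplication: the algebra of the endomorphisms of
the rational homology which commute with the endomorphisms of `A` acts on the part of type IV through
a commutative algebra. -/
def TypeIVPartHasCM : Prop :=
  ∀ X Y, Commutes A X → Commutes A Y → ∀ v ∈ typeIVPart A, X (Y v) = Y (X v)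

/-- `v` is in the rational homology of the part of `A` without factors of type IV: it is annihilated
by the central endomorphisms which are skew-symmetric for the polarization. -/
def IsInPartWithoutTypeIV (v : A.H1) : Prop :=
  ∀ R, IsCentral A R → IsSkewSymmetric A R → R v = 0

/-- The part `A₀` of `A` without factors of type IV is of `GL₂`-type: there is an endomorphism `P` of
`A` such that `H_1(A₀, ℚ)` is generated by two elements over the algebra `ℚ[P]`. (If `P` acts
semisimply then this says that the eigenspaces of `P` on `H_1(A₀, ℂ)` have dimension at most two.) -/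
def IsOfGL2Type : Prop :=
  ∃ P, IsEndomorphism A P ∧ ∃ u : Fin 2 → A.H1, ∀ v, IsInPartWithoutTypeIV A v →
    v ∈ Submodule.span ℚ {w | ∃ (m : ℕ) (i : Fin 2), w = (P ^ m) (u i)}

/-- `H_1(A₀, ℚ)` is generated by four elements over the centre of the algebra of the endomorphisms.
(This says that the eigenspaces of the centre on `H_1(A₀, ℂ)` have dimension at most four.) -/
def IsGeneratedByFour : Prop :=
  ∃ u : Fin 4 → A.H1, ∀ v, IsInPartWithoutTypeIV A v →
    v ∈ Submodule.span ℚ {w | ∃ (R : Module.End ℚ A.H1) (i : Fin 4), IsCentral A R ∧ w = R (u i)}

/-- The endomorphism `X` annihilates the form `φ` (as a derivation). -/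
def Annihilates {k : ℕ} (X : Module.End ℚ A.H1) (φ : Form A k) : Prop :=
  ∀ v, ∑ i, φ (Function.update v i (X (v i))) = 0

/-- `w` is linear over `P` in exactly four variables in the image of `P`, on which `P² = - r`, and
the other variables are in the kernel of `P`. If `k = 2` this says that `w` is the pull-back of a form
on the image of `P` in four variables which is linear over the algebra generated by `P`: the first
condition says that `P` can be moved from one variable in the image of `P` to another, and the second
condition says that there are exactly four such variables in all the components of `w`. -/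
def IsWeilInFourVariables {k : ℕ} (P : Module.End ℚ A.H1) (r : ℚ) (w : Form A k) : Prop :=
  (∀ v i j, i ≠ j → w (Function.update (Function.update v i (P (v i))) j (P (P (v j)))) =
    w (Function.update (Function.update v i (P (P (v i)))) j (P (v j)))) ∧
  ∀ v, ∑ i, w (Function.update v i (P (P (v i)))) = -(4 * r * w v)

/-- `P` acts on the part of type IV as the square root of the negative rational number `- r`, and its
image is the part of type IV, which has dimension eight: so the centre of the algebra of the
endomorphisms of the part of type IV, an abelian variety of dimension four, contains the imaginary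
quadratic field `ℚ(P)`. -/
def GivesImaginaryQuadraticField (P : Module.End ℚ A.H1) (r : ℚ) : Prop :=
  IsCentral A P ∧ IsSkewSymmetric A P ∧ 0 < r ∧ finrank ℚ (typeIVPart A) = 8 ∧
    LinearMap.range P = typeIVPart A ∧ ∀ v ∈ typeIVPart A, P (P v) = -(r • v)

/-- The trace of `P` on the tangent space of `A` is zero (if `P` generates an imaginary quadratic
field then this says that the signature is `(2, 2)`). -/
def TraceZeroOnTangentSpace (P : Module.End ℚ A.H1) : Prop :=
  ∃ M : (Fin g → ℂ) →ₗ[ℂ] (Fin g → ℂ), (∀ v, M (A.per v) = A.per (P v)) ∧
    LinearMap.trace ℂ (Fin g → ℂ) M = 0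

theorem mem_ZA {R : Module.End ℚ A.H1} : R ∈ A.ZA ↔ IsCentral A R ∧ IsSkewSymmetric A R := by
  constructor
  · rintro ⟨h1, h2, h3⟩
    exact ⟨⟨A.mem_EA.1 h1, fun Q hQ => h3 Q (A.mem_EA.2 hQ)⟩, h2⟩
  · rintro ⟨⟨h1, h3⟩, h2⟩
    exact ⟨A.mem_EA.2 h1, h2, fun Q hQ => h3 Q (A.mem_EA.1 hQ)⟩

theorem mem_ZC {R : Module.End ℚ A.H1} : R ∈ Pool.Agent.R912.ZC A ↔ IsCentral A R := by
  constructor
  · rintro ⟨h1, h3⟩
    exact ⟨A.mem_EA.1 h1, fun Q hQ => h3 Q (A.mem_EA.2 hQ)⟩
  · rintro ⟨h1, h3⟩
    exact ⟨A.mem_EA.2 h1, fun Q hQ => h3 Q (A.mem_EA.1 hQ)⟩

theorem typeIVPart_eq : typeIVPart A = Pool.Agent.H845.CM.V1 A := by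
  unfold typeIVPart Pool.Agent.H845.CM.V1
  congr 1
  ext v
  constructor
  · rintro ⟨R, h1, h2, h3⟩
    exact ⟨R, (mem_ZA A).2 ⟨h1, h2⟩, h3⟩
  · rintro ⟨R, h1, h3⟩
    exact ⟨R, ((mem_ZA A).1 h1).1, ((mem_ZA A).1 h1).2, h3⟩

/-- **The de Rham-Betti classes of all degrees on `A₀ × A₁`, if `A₁` has complex multiplication and
dimension at most four, and `A₀` has no factors of type IV and is of `GL₂`-type or its homology is
generated by four elements over the centre, are sums of Hodge classes and of classes in the product of
the cohomology of `A₀` and of the space of Weil classes.** -/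
theorem result {g : ℕ} (A : AbVar g) (hCM : TypeIVPartHasCM A)
    (h1 : finrank ℚ (typeIVPart A) ≤ 8) (h0 : IsOfGL2Type A ∨ IsGeneratedByFour A)
    (k : ℕ) (φ : Form A k) (hφ : IsDRB A φ) :
    ∃ φ₀ w : Form A k, φ = φ₀ + w ∧ IsDRB A φ₀ ∧ IsDRB A w ∧
      IsHodge A φ₀ ∧ (∀ X, IsSkewSymmetric A X → Commutes A X → Annihilates A X φ₀) ∧
      (w = 0 ∨ ∃ (P : Module.End ℚ A.H1) (r : ℚ), GivesImaginaryQuadraticField A P r ∧
        IsWeilInFourVariables A P r w ∧ (TraceZeroOnTangentSpace A P → IsHodge A w)) := by
  have hA : Pool.Agent.H845.CM.CMIV A := by
    intro R hR X hX Y hY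
    refine LinearMap.ext fun v => ?_
    have h2 := hCM X Y (fun Q hQ => (A.mem_EA.2 hQ) X hX) (fun Q hQ => (A.mem_EA.2 hQ) Y hY)
      (R v) (Submodule.subset_span ⟨R, ((mem_ZA A).1 hR).1, ((mem_ZA A).1 hR).2, v, rfl⟩)
    change X (Y (R v)) - Y (X (R v)) = 0
    rw [h2, sub_self]
  have hK : Pool.Agent.H845.AC.Kill0 A := by
    obtain ⟨n, b, χ, hb⟩ := A.exists_basis
    rcases h0 with ⟨P, hP, u, hE⟩ | ⟨u, hE⟩
    · refine Pool.Agent.H845.AC.kill0_two hb (A.mem_EA.2 hP) fun c => ?_
      have h2 := Pool.Agent.H845.AC.gl2_small hb (A.mem_EA.2 hP) u
        (fun v hv => hE v fun R h3 h4 => hv R ((mem_ZA A).2 ⟨h3, h4⟩)) c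
      rwa [Fintype.card_fin] at h2
    · refine Pool.Agent.H845.AC.kill0_four hb fun c hc => ?_
      have h2 := Pool.Agent.H845.AC.ceig_small hb u (fun v hv => ?_) c hc
      · rwa [Fintype.card_fin] at h2
      · refine Submodule.span_mono ?_ (hE v fun R h3 h4 => hv R ((mem_ZA A).2 ⟨h3, h4⟩))
        rintro w ⟨R, i, h3, rfl⟩
        exact ⟨R, (mem_ZC A).2 h3, i, rfl⟩
  rw [typeIVPart_eq] at h1
  obtain ⟨φ₀, w, e1, e2, e3, e4, e5, e6⟩ := Pool.Agent.H845.AC.main hK hA h1 φ hφ
  refine ⟨φ₀, w, e1, e2, e3, e4, fun X hX hX' => e5 X hX fun Q hQ => hX' Q (A.mem_EA.1 hQ), ?_⟩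
  rcases e6 with e6 | ⟨P, r, hP, hr, hfin, hPP, hlin, hM⟩
  · exact Or.inl e6
  · have hsub : ∀ v ∈ Pool.Agent.H845.CM.V1 A, P (P v) = -(r • v) := by
      intro v hv
      unfold Pool.Agent.H845.CM.V1 at hv
      induction hv using Submodule.span_induction with
      | mem v hv =>
        obtain ⟨R, hR, u, rfl⟩ := hv
        exact LinearMap.congr_fun (hPP R hR) u
      | zero => simp
      | add x y _ _ hx hy => rw [map_add, map_add, hx, hy, smul_add, neg_add]
      | smul c x _ hx => rw [map_smul, map_smul, hx, smul_neg, smul_comm]
    refine Or.inr ⟨P, r, ⟨((mem_ZA A).1 hP).1, ((mem_ZA A).1 hP).2, hr, ?_, ?_, ?_⟩, hlin, ?_⟩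
    · rw [typeIVPart_eq]
      exact hfin
    · rw [typeIVPart_eq]
      apply le_antisymm
      · rintro _ ⟨u, rfl⟩
        exact Submodule.subset_span ⟨P, hP, u, rfl⟩
      · intro v hv
        have h2 := hsub v hv
        refine ⟨-(r⁻¹ • P v), ?_⟩
        rw [map_neg, map_smul, h2, smul_neg, neg_neg, smul_smul, inv_mul_cancel₀ hr.ne', one_smul]
    · rw [typeIVPart_eq]
      exact hsub
    · rintro ⟨M, hM1, hM2⟩
      exact hM M hM1 hM2

end Pool.Agent.Results.MP_bf54cf_ag.AllCodimensions
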