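import Pool.Agent.H945.Sf5
import Pool.Graph.R_pool_sql_team_seeded_63374d34.N208.LC.Pow

set_option autoImplicit false

/-!
# The period conjecture for cycles on all powers of abelian varieties with central eigenspaces of dimension at most four

Let `A` be an abelian variety over the field `ℚ̄` of algebraic numbers. A de Rham-Betti class in `H^1(A)^{⊗ 2m}(m)` is a
multilinear form `φ` with rational values in `2 m` variables in `H_1(A, ℚ)` such that `(2 π i) ^ m φ` is a combination with
algebraic coefficients of the products of the elements of `H^1_dR(A / ℚ̄)`. These classes for all `m` include the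
de Rham-Betti classes on all powers of `A`.

Assume that `A` has no factor of type IV (`NoFactorOfTypeIV`) and that the common eigenspaces of the centre of
`End(A) ⊗ ℚ` on `H_1(A, ℂ)` have dimension at most four; for example `A` may be a product of pairwise non-isogenous
simple abelian varieties with real multiplication by a totally real field `F_i` of degree `dim A_i` or `(dim A_i) / 2`
(in particular of abelian surfaces with `End = ℤ`, and elliptic curves), and of varieties with quaternionic
multiplication. For such `A` the theorem ProductsOfSurfaces of the library of earlier results determines the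
de Rham-Betti classes in `H^{2k}(A)(k)`. It says nothing about the powers of `A`; already for a single surface with
`End = ℤ` one cannot exclude at present that the de Rham-Betti group is the group `GL(2)` acting by the third symmetric
power. We exclude this for surfaces (and all eigenspaces of dimension four) with an additional symmetry, **complex
conjugation**.

**Conjugations** (`IsConjugation`). Let `φ` be a homomorphism from the complex conjugate `Ā` of `A` to `A`. The composition
`F` of complex conjugation and `φ` is an endomorphism of `H_1(A, ℚ)`, antilinear on the tangent space, and the complex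
conjugates of the periods of `F γ` are combinations of the periods of `γ` with algebraic coefficients. We do not assume
that `F` is invertible; it may be an isogeny on some factor of `A` and zero on the others. We have
`F² = φ φ̄ ∈ End(A) ⊗ ℚ`.

**Hypothesis** (`HasConjugations`). For each common eigenspace `N` of dimension four on which all endomorphisms of `A` act
by scalars (so `N` comes from a simple factor of relative dimension two over its totally real field, of multiplicity one)
there is a conjugation `F` which commutes with the central endomorphisms of `A` and is *self-adjoint* for the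
polarization, `ω(F x, y) = ω(x, F y)`, and such that `F² ≠ 0` on `N`.

For a simple surface `A` with `End = ℤ` this is an isogeny `φ : Ā → A` with `φ φ̄ = - n`, `n > 0` (`F` is self-adjoint if and
only if `φ φ̄ < 0`), and for a simple `A` with multiplication by a totally real field `F_0` of degree `(dim A) / 2` it is an
`F_0`-linear isogeny such that `φ φ̄` is totally negative. No hypothesis is made about eigenspaces of dimension two and about
eigenspaces of dimension four of varieties with quaternionic multiplication, or of squares.

**Theorem.** Let `A` be such an abelian variety. For all `m`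

1. all de Rham-Betti classes in `H^1(A)^{⊗ 2m}(m)` are Hodge classes, and they are annihilated by all endomorphisms `X` of
   `H_1(A, ℚ)` which commute with the endomorphisms of `A` and are skew-symmetric for the polarization (the Lie algebra of
   the Lefschetz group);
2. if `End(A) ⊗ ℚ` is commutative, then for all `n` every de Rham-Betti class in `H^1(A ^ n)^{⊗ 2m}(m)` is a linear
   combination of products of Hodge classes in `H^1(A ^ n)^{⊗ 2}(1)`, and every class in `H^{2m}_Gr(A ^ n, ℚ(m))` is a linear
   combination of products of `m` divisor classes: **`GPC ^ m (A ^ n)` is true for all `m` and `n`**.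

(If `End(A) ⊗ ℚ` is not commutative, and `A` has no factors of type III, then the classes which are annihilated by the Lie
algebra of the Lefschetz group are combinations of products of divisor classes by a theorem of Milne, so `GPC ^ m (A ^ n)` is
true for all `m` and `n` in this case, too.)

## Examples (explanations, not part of the statement)

* Let `C` be one of the curves of genus two of Shimura with a real field of moduli which are not definable over `ℝ`,
  `y² = - ā₀ x⁶ + ā₁ x⁵ - ā₂ x⁴ + a₃ x³ + a₂ x² + a₁ x + a₀`, `a₃` real, `a_i ∈ ℚ̄`; the map `(x, y) ↦ (- 1 / x, i y / x³)` to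
  the conjugate curve has `φ φ̄ = - 1` on the Jacobian. If `End(J(C)) = ℤ` then `GPC ^ m (C ^ n)` and `GPC ^ m (J(C) ^ n)` hold for
  all `m`, `n`. (For a single surface this is also a consequence of the theorem ReflectionConjugation of `MP_f11a48_ag`; these
  are the first abelian surfaces with `End = ℤ` with this property.)
* Let `J_1, …, J_r` be such Jacobians, pairwise not isogenous, `E_1, …, E_s` elliptic curves without complex
  multiplication, pairwise not isogenous, and `B_1, …, B_t` simple abelian varieties with real multiplication of degree
  `dim B_i`, pairwise not isogenous. Then `GPC ^ m` holds for all `m` for all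
  `J_1^{a_1} × … × J_r^{a_r} × E_1^{b_1} × … × E_s^{b_s} × B_1^{c_1} × … × B_t^{c_t}` (a factor of `A ^ n`, where `A` is the product of all
  these varieties; the conjugation `F` of `J_i` is extended by zero).
* The same for the abelian fourfolds (and `2 e`-folds) with real multiplication of relative dimension two which are
  isogenous to their conjugates by `F_0`-linear isogenies with totally negative `φ φ̄`.

Nothing is assumed about periods: `AbVar` is the description of an abelian variety over `ℚ̄` by theta functions (see
`Pool/Agent/Y102/AVDefs.lean`, where it is explained why every abelian variety has it), and the transcendence theorems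
which are used, the theorem of Schneider and Lang and the transcendence of `π`, are proved in the library.

## Proof (`Pool/Agent/H945/Sf1`-`Sf5`)

Let `𝔥` be the Lie algebra of the endomorphisms of `H_1(A, ℚ)` which annihilate all de Rham-Betti classes. It contains the
components `X(D, λ)` of the logarithmic derivatives `D(P) P⁻¹` of the period matrix for the derivations `D` of `ℂ` over `ℚ̄` and
the `ℚ`-linear maps `λ : ℂ → ℚ`, and by the theorem of Schneider and Lang each Lie subalgebra of the Lefschetz Lie algebra
which contains all `X(D, λ)` acts semisimply with the commutant `End(A)` (theorems of the library). As in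
ProductsOfSurfaces each irreducible subspace `N` of `H_1(A, ℂ)` of dimension four is of type II, where `𝔥 ⊗ ℂ` acts on `N` by
`sp(4)`, or of type I, where `𝔥 ⊗ ℂ` acts on `N` by the third symmetric power of `sl(2)`.

*Type I is impossible* (`not_I`). Let `F` be the conjugation for `N`. We have `X(D, λ) F = F X(D̄, λ̄)` with the conjugates
`D̄`, `λ̄` (`X0_F`). So the `X ∈ 𝔥` for which there is an `Y ∈ 𝔥` with `X F = F Y`, `Y F = F X` form a Lie algebra `𝔥'` which
contains all `X(D, λ)`, and it has the same properties as `𝔥`. On `N` the square `F²` is a scalar `r ≠ 0`, and `F` is not a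
scalar since it anticommutes with the complex structure. Let `X, Y ∈ 𝔥' ⊗ ℂ` be as above and `Z = X - Y`, so that
`Z F = - F Z`. The endomorphism `F Z` of `N` is self-adjoint, as `F` is self-adjoint, `Z` is skew-adjoint, and they
anticommute. But a self-adjoint endomorphism of a symplectic space of dimension four satisfies an equation of degree two
(`sym_quadratic`), `(F Z)² = p F Z + q`, and as `F Z` anticommutes with `F` the term `p F Z` is zero. Hence `Z²` is a scalar on `N`.
In the third symmetric power of `sl(2)` the square of an element `Z ≠ 0` is never a scalar (`zero_of_sq`), so that `Z = 0`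
on `N`. We see that `F` commutes with `𝔥' ⊗ ℂ` on `N`, and by the lemma of Schur it is a scalar, a contradiction.

So all irreducible subspaces of dimension four are of type II. As in ProductsOfSurfaces the root systems of type II are
independent of each other and of the irreducible subspaces of dimension two, and `𝔥` contains the Lefschetz Lie algebra
(`lef_le`). For the second part we use the first fundamental theorem for the symplectic groups and commutative
coefficient algebras (library; `products_of_kills`).
-/

open Module TensorProduct Pool.Agent.Y102 Pool.Agent.W516.DR Pool.Agent.H204R3.GP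

noncomputable section

namespace Pool.Agent.Results.MP_bf54cf_ag.PowersAndConjugation

variable {g : ℕ} (A : AbVar g)

/-! ### Endomorphisms -/

/-- The endomorphisms of `A`, up to isogeny: the endomorphisms of `H_1(A, ℚ)` which respect the de Rham cohomology over the
field of algebraic numbers. (By a theorem of Bost, proved in the library as `Pool.Agent.Y102.AbVar.hodge_end`, these are
the elements of `End(A) ⊗ ℚ`.) -/
def IsEndomorphism (P : Module.End ℚ A.H1) : Prop := IsDeRhamBettiEnd QBar A.dR P

/-- `P` is in the centre of the algebra of the endomorphisms. -/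
def IsCentral (P : Module.End ℚ A.H1) : Prop :=
  IsEndomorphism A P ∧ ∀ Q, IsEndomorphism A Q → P * Q = Q * P

/-- `X` is skew-symmetric for the polarization. -/
def IsSkewSymmetric (X : Module.End ℚ A.H1) : Prop := ∀ u v, A.om (X u) v + A.om u (X v) = 0

/-- There is no factor of type IV: the centre contains no nonzero skew-symmetric element. -/
def NoFactorOfTypeIV : Prop := ∀ P, IsCentral A P → IsSkewSymmetric A P → P = 0

/-- `H_1(A, ℂ)` -/
abbrev HC : Type := ℂ ⊗[ℚ] A.H1

/-- The extension of an endomorphism of `H_1(A, ℚ)` to `H_1(A, ℂ)`. -/
def extC (P : Module.End ℚ A.H1) : HC A →ₗ[ℂ] HC A := P.baseChange ℂ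

/-- The common eigenspace in `H_1(A, ℂ)` of the centre of the algebra of the endomorphisms, with the
eigenvalues `c P`. -/
def centralEigenspace (c : Module.End ℚ A.H1 → ℂ) : Submodule ℂ (HC A) :=
  ⨅ (P : Module.End ℚ A.H1) (_ : IsCentral A P), LinearMap.ker (extC A P - c P • LinearMap.id)

/-! ### Conjugations -/

/-- `F` is given by complex conjugation and a homomorphism from the complex conjugate of `A` to `A`: it is antilinear
on the tangent space, and the complex conjugates of the periods `A.dR i (F γ)` of `F γ` are linear combinations of the periods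
of `γ` with algebraic coefficients which do not depend on `γ`. -/
structure IsConjugation (F : Module.End ℚ A.H1) : Prop where
  antilinear : ∃ M : Fin g → Fin g → ℂ, ∀ γ i, A.per (F γ) i = ∑ j, M i j * starRingEnd ℂ (A.per γ j)
  periods : ∃ b : Fin g ⊕ Fin g → Fin g ⊕ Fin g → ℂ, (∀ i j, IsAlgebraic ℚ (b i j)) ∧
    ∀ i γ, starRingEnd ℂ (A.dR i (F γ)) = ∑ j, b i j * A.dR j γ

/-- The conjugation `F` is usable for the eigenspace of `c`: it commutes with the central endomorphisms, is self-adjoint
for the polarization, and `F²` is not zero on the eigenspace. -/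
structure IsConjugationFor (c : Module.End ℚ A.H1 → ℂ) (F : Module.End ℚ A.H1) : Prop where
  conjugation : IsConjugation A F
  central : ∀ P, IsCentral A P → F * P = P * F
  selfAdjoint : ∀ u v, A.om (F u) v = A.om u (F v)
  nonzero : ∃ u ∈ centralEigenspace A c, extC A F (extC A F u) ≠ 0

/-- All endomorphisms of `A` act by scalars on the common eigenspace of the centre. -/
def IsScalar (c : Module.End ℚ A.H1 → ℂ) : Prop :=
  ∀ P, IsEndomorphism A P → ∃ r : ℂ, ∀ u ∈ centralEigenspace A c, extC A P u = r • u

/-- For each common eigenspace of the centre of dimension four on which all endomorphisms of `A` are scalars there is a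
conjugation `F` which commutes with the central endomorphisms and is self-adjoint for the polarization, and `F²` is not
zero on the eigenspace. -/
def HasConjugations : Prop := ∀ c : Module.End ℚ A.H1 → ℂ, finrank ℂ (centralEigenspace A c) = 4 →
  IsScalar A c → ∃ F : Module.End ℚ A.H1, IsConjugationFor A c F

/-- **The hypothesis.** There is no factor of type IV, the common eigenspaces of the centre have dimension at most four,
and there are conjugations for those of dimension four with scalar endomorphisms. -/
structure Hypothesis : Prop where
  noTypeIV : NoFactorOfTypeIV A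
  dimension : ∀ c, finrank ℂ (centralEigenspace A c) ≤ 4
  conjugations : HasConjugations A

/-! ### Classes on `A` -/

/-- `H^1(A, ℚ) ^ {⊗ 2m}`: the multilinear forms in `2m` variables in the rational homology. -/
abbrev Form (m : ℕ) : Type := MultilinearMap ℚ (fun _ : Fin m × Fin 2 => A.H1) ℚ

/-- `φ` is a de Rham-Betti class in `H^1(A) ^ {⊗ 2m} (m)`. -/
def IsDRB {m : ℕ} (φ : Form A m) : Prop :=
  IsDeRhamBettiForm QBar A.dR (2 * Real.pi * Complex.I) m φ

/-- `φ` is a Hodge class in `H^1(A) ^ {⊗ 2m} (m)`. -/
def IsHodge {m : ℕ} (φ : Form A m) : Prop := IsHodgeTensor (A.per : A.H1 →+ (Fin g → ℂ)) φ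

/-- The endomorphism `X` annihilates the form `φ` (as a derivation). -/
def Annihilates {m : ℕ} (X : Module.End ℚ A.H1) (φ : Form A m) : Prop :=
  ∀ v, ∑ k, φ (Function.update v k (X (v k))) = 0

/-- `X` is in the Lie algebra of the Lefschetz group of `A`: it is skew-symmetric for the polarization and commutes with the
endomorphisms of `A`. -/
def IsLefschetz (X : Module.End ℚ A.H1) : Prop :=
  IsSkewSymmetric A X ∧ ∀ Q, IsEndomorphism A Q → X * Q = Q * X

/-- The first conclusion: all de Rham-Betti classes in `H^1(A) ^ {⊗ 2m} (m)` are Hodge classes and are annihilated by the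
Lie algebra of the Lefschetz group. -/
def ClassesAreHodge (m : ℕ) : Prop :=
  ∀ φ : Form A m, IsDRB A φ → IsHodge A φ ∧ ∀ X, IsLefschetz A X → Annihilates A X φ

/-! ### Classes on the powers of `A` -/

/-- The inclusion of the rational homology of `A ^ n` in the tangent space. -/
def perPow (n : ℕ) : (Fin n → A.H1) →+ (Fin n → Fin g → ℂ) where
  toFun v j := A.per (v j)
  map_zero' := by
    funext j
    exact map_zero _
  map_add' u v := by
    funext j
    exact map_add _ _ _

/-- The basis of `H^1_dR(A ^ n / ℚ̄)`. -/
def dRPow (n : ℕ) (i : (Fin g ⊕ Fin g) × Fin n) : (Fin n → A.H1) →ₗ[ℚ] ℂ :=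
  (A.dR i.1).comp (LinearMap.proj i.2)

/-- `H^1(A ^ n, ℚ) ^ {⊗ 2m}`: the multilinear forms in `2 m` variables in `H_1(A ^ n, ℚ)`. -/
abbrev TensorPow (m n : ℕ) : Type := MultilinearMap ℚ (fun _ : Fin m × Fin 2 => Fin n → A.H1) ℚ

/-- `H^{2m}(A ^ n, ℚ)`: the alternating forms in `2 m` variables in `H_1(A ^ n, ℚ)`. -/
abbrev Cohomology (m n : ℕ) : Type := (Fin n → A.H1) [⋀^Fin m × Fin 2]→ₗ[ℚ] ℚ

/-- The bilinear forms on `H_1(A ^ n, ℚ)`. -/
abbrev Bilinear (n : ℕ) : Type := (Fin n → A.H1) →ₗ[ℚ] (Fin n → A.H1) →ₗ[ℚ] ℚ

/-- `φ` is a de Rham-Betti class in `H^1(A ^ n) ^ {⊗ 2m} (m)`. -/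
def IsDRBPow {m n : ℕ} (φ : TensorPow A m n) : Prop :=
  IsDeRhamBettiForm QBar (dRPow A n) (2 * Real.pi * Complex.I) m φ

/-- `φ` is an element of `H^{2m}_Gr(A ^ n, ℚ(m))`. -/
def IsGr {m n : ℕ} (φ : Cohomology A m n) : Prop := IsDRBPow A φ.toMultilinearMap

/-- `φ` is a linear combination of products of Hodge classes in `H^1(A ^ n) ^ {⊗ 2} (1)`, where the
`2 m` variables are distributed in some way. -/
def IsDecomposable {m n : ℕ} (φ : TensorPow A m n) : Prop :=
  φ ∈ Submodule.span ℚ {ψ | IsProductOfHodgeBilinear (perPow A n) ψ}

/-- The alternating bilinear form `b` is a Hodge class in `H^2(A ^ n) (1)`, that is (Lefschetz), a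
rational multiple of the class of a divisor. -/
def IsDivisorClass {n : ℕ} (b : Bilinear A n) : Prop :=
  IsHodgeBilinear (perPow A n) b ∧ ∀ u, b u u = 0

/-- The product of the values of the bilinear forms `b l` on the vectors `v (l, 0)`, `v (l, 1)`. -/
def prodAt {m n : ℕ} (b : Fin m → Bilinear A n) (v : Fin m × Fin 2 → Fin n → A.H1) : ℚ :=
  ∏ l, b l (v (l, 0)) (v (l, 1))

/-- The alternating form `ψ` is the product of the classes `b l` of degree two. -/
def IsProduct {m n : ℕ} (b : Fin m → Bilinear A n) (ψ : Cohomology A m n) : Prop :=
  ∀ v, ψ v = ∑ σ : Equiv.Perm (Fin m × Fin 2), ((Equiv.Perm.sign σ : ℤ) : ℚ) * prodAt A b (v ∘ σ)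

/-- `φ` is a linear combination of products of divisor classes. -/
def IsSumOfProducts {m n : ℕ} (φ : Cohomology A m n) : Prop :=
  φ ∈ Submodule.span ℚ {ψ | ∃ b : Fin m → Bilinear A n, (∀ l, IsDivisorClass A (b l)) ∧
    IsProduct A b ψ}

/-- The second conclusion: the de Rham-Betti classes in `H^1(A ^ n) ^ {⊗ 2m} (m)` are combinations of products of Hodge
classes of degree two, and the classes in `H^{2m}_Gr(A ^ n, ℚ(m))` are combinations of products of divisor classes. In
particular `GPC ^ m (A ^ n)` is true. -/
def ClassesOnPower (m n : ℕ) : Prop :=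
  (∀ φ : TensorPow A m n, IsDRBPow A φ → IsDecomposable A φ) ∧
    ∀ φ : Cohomology A m n, IsGr A φ → IsSumOfProducts A φ

/-- The endomorphisms of `A` commute with each other. -/
def IsCommutative : Prop := ∀ P Q, IsEndomorphism A P → IsEndomorphism A Q → P * Q = Q * P

/-! ### The proof -/

variable {A}

theorem mem_ZC (P : Module.End ℚ A.H1) : P ∈ Pool.Agent.R912.ZC A ↔ IsCentral A P :=
  ⟨fun h => ⟨A.mem_EA.1 h.1, fun Q hQ => h.2 Q (A.mem_EA.2 hQ)⟩,
    fun h => ⟨A.mem_EA.2 h.1, fun Q hQ => h.2 Q (A.mem_EA.1 hQ)⟩⟩

theorem noTypeIV (hA : NoFactorOfTypeIV A) : Pool.Agent.R912.NoTypeIV A :=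
  fun P hP hc' hs => hA P ((mem_ZC P).1 ⟨hP, hc'⟩) hs

theorem ceig_eq (c : Module.End ℚ A.H1 → ℂ) : Pool.Agent.W5h25.AS.ceig A c = centralEigenspace A c := by
  ext u
  unfold centralEigenspace
  simp only [Submodule.mem_iInf, LinearMap.mem_ker, LinearMap.sub_apply, LinearMap.smul_apply, LinearMap.id_apply,
    sub_eq_zero]
  exact ⟨fun hu P hP => hu P ((mem_ZC P).2 hP), fun hu P hP => hu P ((mem_ZC P).1 hP)⟩

theorem hasConj (hC : HasConjugations A) : Pool.Agent.H945.Sf.HasConj A := by
  intro c h4 hs
  rw [ceig_eq] at h4 hs ⊢
  obtain ⟨F, h⟩ := hC c h4 fun P hP => hs P (A.mem_EA.2 hP)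
  exact ⟨F, ⟨h.conjugation.antilinear, h.conjugation.periods⟩, fun P hP => h.central P ((mem_ZC P).1 hP), h.selfAdjoint,
    h.nonzero⟩

/-- If the algebra of the endomorphisms is commutative, without a factor of type IV, then all endomorphisms are
self-adjoint. -/
theorem self_of_comm (hA : NoFactorOfTypeIV A) (hc : IsCommutative A) (P : Module.End ℚ A.H1) (hP : P ∈ A.EA)
    (u v : A.H1) : A.om (P u) v = A.om u (P v) := by
  obtain ⟨P', hP', h⟩ := A.endAlg.adj P hP
  have h1 : ∀ u v, A.om (P' u) v = A.om u (P v) := fun u v => by
    rw [A.om_anti, ← h, A.om_anti, neg_neg]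
  have h2 : P - P' = 0 := by
    refine hA _ ⟨A.mem_EA.1 (A.EA.sub_mem hP hP'), fun Q hQ =>
      hc _ _ (A.mem_EA.1 (A.EA.sub_mem hP hP')) hQ⟩ fun u v => ?_
    rw [LinearMap.sub_apply, LinearMap.sub_apply, map_sub, map_sub, LinearMap.sub_apply, h, h1]
    ring
  rw [h, ← sub_eq_zero.1 h2]

/-- **Theorem.** Let `A` be an abelian variety over `ℚ̄` without a factor of type IV, such that the common eigenspaces of the
centre of the algebra of the endomorphisms on `H_1(A, ℂ)` have dimension at most four, and such that there is a self-adjoint
conjugation for each of these of dimension four on which the endomorphisms are scalars. Let `m` be any number.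

1. All de Rham-Betti classes in `H^1(A) ^ {⊗ 2m} (m)` are Hodge classes and are annihilated by the Lefschetz Lie algebra.
2. If the endomorphisms of `A` commute with each other then for all `n` every de Rham-Betti class in
   `H^1(A ^ n) ^ {⊗ 2m} (m)` is a linear combination of products of Hodge classes of degree two, and every class in
   `H^{2m}_Gr(A ^ n, ℚ(m))` is a linear combination of products of divisor classes. -/
theorem result {g : ℕ} (A : AbVar g) (hA : Hypothesis A) (m : ℕ) :
    ClassesAreHodge A m ∧ (IsCommutative A → ∀ n : ℕ, ClassesOnPower A m n) := by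
  have hZ := noTypeIV hA.noTypeIV
  have hE' : ∀ c, finrank ℂ (Pool.Agent.W5h25.AS.ceig A c) ≤ 4 := fun c => by
    rw [ceig_eq]
    exact hA.dimension c
  have hC' := hasConj hA.conjugations
  refine ⟨fun φ hφ => ⟨Pool.Agent.H945.Sf.drb_hodge hZ hE' hC' hφ, fun X hX =>
    Pool.Agent.H945.Sf.drb_kills hZ hE' hC' hφ hX.1 fun Q hQ => hX.2 Q (A.mem_EA.1 hQ)⟩, fun hc n => ?_⟩
  have key : ∀ φ : MultilinearMap ℚ (fun _ : Fin m × Fin 2 => A.H1) ℚ,
      IsDeRhamBettiForm QBar A.dR tau m φ →
      φ ∈ Submodule.span ℚ {ψ | IsProductOfHodgeBilinear (A.per : A.H1 →+ (Fin g → ℂ)) ψ} := by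
    intro φ hφ
    refine A.lef_sub (Pool.Agent.H945.Sf.products_of_kills (fun P hP Q hQ => hc P Q (A.mem_EA.1 hP) (A.mem_EA.1 hQ))
      (self_of_comm hA.noTypeIV hc) φ fun X h1 h2 => ?_)
    exact Pool.Agent.H945.Sf.drb_kills hZ hE' hC' hφ h1 h2
  have h1 := fun φ hφ => N208.LC.main_pow (A := A) (m := m) (n := n) key φ hφ
  exact ⟨h1, fun φ hφ => N208.LC.alt_span φ (h1 _ hφ)⟩

end Pool.Agent.Results.MP_bf54cf_ag.PowersAndConjugation
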