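import Pool.Agent.H943.DP.AppC
import Pool.Graph.R_pool_sql_team_seeded_63374d34.N208.LC.Fin
import Pool.Graph.R_pool_sql_team_seeded_63374d34.N297.LCCOREG

set_option autoImplicit false

/-!
# The Grothendieck period conjecture for algebraic cycles on powers of abelian varieties with
# multiplication by division algebras of prime power degree over CM fields

Let `A` be an abelian variety over `ℚ̄`, such that the centre of `End(A) ⊗ ℚ` is a CM field `F`,
generated by an element `z` with `z̄ = - z`. (So `A` is isogenous to a power of a simple abelian variety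
of type IV.) Let `B` be the algebra of the endomorphisms of the rational vector space `H_1(A, ℚ)` which
commute with `End(A)`, a central simple algebra over `F`. We assume that `B` is a **division algebra whose
degree `N` over `F` is a power of a prime number** (`DivisionType`). Let `S` be a set of
representatives, modulo `a ↦ - a`, of the real numbers `a` such that both `i a` and `- i a` are eigenvalues
of `z` on the tangent space of `A`: so `S` is the set of the places of `F` at which the unitary group of
`B` is not compact, of a signature `(r_a, s_a)`. The integers `r_a, s_a ≥ 1` with `r_a + s_a = N` are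
arbitrary. Let `S` be nonempty (otherwise `A` is of CM type). Moreover:

* *the exponent* of `B`, its order in the Brauer group of `F`, is equal to the degree `N`
  (`HasExponent`). This is always true, by the theorem of Albert, Brauer, Hasse and Noether, since `F` is
  a number field; the condition is only here because that theorem is not available in Mathlib. It
  is formulated in elementary terms: if there are `k` pairwise commuting representations of `B` on one
  vector space over `F` of dimension at most `N ^ k` (then `B ^ {⊗ k}` is a matrix algebra), then `N`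
  divides `k`.
* *separation*: if `B = B₁ F` for a subalgebra `B₁ ⊆ B` over `ℚ`, then the elements of `F` in `B₁` separate
  `± i a` and `± i b` for different `a`, `b` in `S` (so nothing is assumed if `S` has one element).

For the general member `A` of a Shimura variety of Kottwitz, Clozel, Harris and Taylor, given by a division
algebra of degree `N` over a CM field of degree `2 d`, `End(A) ⊗ ℚ = B^op`, and `dim A = d N ^ 2`. If `A` is
simple and a division algebra of degree `N` over `F` acts on `A`, `dim A = d N ^ 2`, then it is the whole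
algebra `End(A) ⊗ ℚ`, so the theorem is about all of them and not only about the general ones.

**Theorem.** Let `m` and `n` be natural numbers, and suppose that

1. `m < N` if `N` is odd, `2 m < N` if `N` is even; or
2. (`ControlledCentre`) there is an abelian variety `A'` with `A` as a factor, such that the centre of
   the Lie algebra of the Hodge group of `A'` is rigid, and acts on `A` through all elements `x ∈ F` with
   `x̄ = - x`.

Then every de Rham-Betti class in `H^1(A ^ n) ^ {⊗ 2 m} (m)` is a linear combination of products of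
Hodge classes in `H^1(A ^ n) ^ {⊗ 2} (1)`, and every class in `H^{2 m}_Gr(A ^ n, ℚ(m))` is a
linear combination of products of `m` divisor classes. So `GPC^m(A ^ n)` is true.

In the case 1 this gives for odd `N` the period conjecture for cycles of codimension `m < N` (and, by
hard Lefschetz, of codimension `m > dim(A ^ n) - N`) on all powers of `A`, for all CM fields `F`.

**In all codimensions.** Let `F` be imaginary quadratic, `r ≠ s` (this is automatic if `N` is odd).
Then the assumption 2 is satisfied, and `GPC^m(A ^ n)` is true for *all* `m` and `n`: take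
`A' = A × E₀`, where `E₀` is an elliptic curve with complex multiplication by `F`.

The case that `N` is a prime number is contained in `UnitaryPowers` (helper208). The method of that
work stops at prime degrees, since it uses that the differences of the conjugates of an element
of prime degree are all different. New is the following theorem (`Pool.Agent.H943.DP.thmA`), which is the
subject of the files `Pool/Agent/H943/DP/`:

*Theorem A. Let `B` be a central division algebra over a field `F` of characteristic zero, of degree
`N = p ^ k` and exponent `N`. Every `F`-subspace of `B` which is closed under commutators and generates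
`B` as an algebra contains all commutators of elements of `B`.*

(For composite degrees this is false: `B' ⊗ 1 + 1 ⊗ B''` in `B' ⊗ B''`.) The first new cases are the
signatures `(2, 2)` for `N = 4`, `(2, 6)`, `(3, 5)`, `(4, 4)` for `N = 8` and `(3, 6)`, `(2, 7)`, `(4, 5)` for `N = 9`.

Nothing is assumed about periods: `AbVar` is the description of an abelian variety over `ℚ̄` by theta
functions (see `Pool/Agent/Y102/AVDefs.lean`, where it is explained why every abelian variety has it),
and the transcendence theorems which are used, the theorem of Schneider and Lang and the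
transcendence of `π`, are proved in this repository.

## The classes

The cohomology of the abelian variety `A ^ n` in degree `2 m` is the space of the alternating forms in
`2 m` variables on `H_1(A ^ n, ℚ) = H_1(A, ℚ) ^ n`, and `H^{2m}_dR(A ^ n / ℚ̄)` is the exterior power of
`H^1_dR(A ^ n / ℚ̄)`, which has a basis consisting of the elements `A.dR i` on the `n` factors
(`dRPow`). So `H^{2m}_Gr(A ^ n, ℚ(m))` is the space of the rational alternating forms `φ` such that
`(2 π i) ^ m φ` is a combination of products of elements of this basis, with algebraic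
coefficients (`IsDRB`). The variables are indexed by `Fin m × Fin 2`. A rational alternating form in two
variables which is a Hodge class is the class of a divisor, with rational coefficients, by the theorem of
Lefschetz (`IsDivisorClass`).

## Proof

Let `𝔩` be the Lie algebra of the endomorphisms of `H_1(A, ℚ)` which annihilate all de Rham-Betti
classes. By the theorem of Schneider and Lang `𝔩` acts semisimply, with the commutant `End(A) ⊗ ℚ`. So the
`F`-span of `𝔩` generates `B`, and by Theorem A it contains all commutators.

1. So at the places of `S` the image of `[𝔩, 𝔩] ⊗ ℝ` is an irreducible subalgebra of `su(r, s)` whose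
   complex span is `sl(N)`; it is `su(r, s)`, and for several places the image is the product of these
   (`Pool.Agent.H943.DP.hg_ofq`). At the other places the trace form of `[𝔩, 𝔩] ⊗ ℝ` is negative
   definite; it follows that `[𝔩, 𝔩] ⊗ ℝ` contains the elements of `su(r_a, s_a)` extended by zero
   (`S_CPT`). As `F` is a field, `[𝔩, 𝔩]` is equal to the Lie algebra
   `su(B)` of the skew elements of `B` with the reduced trace zero (`S_U`): its orthogonal complement
   in `su(B)` for the trace form vanishes at one place, so it vanishes.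
2. Over `ℂ` the Lie algebra `su(B)` is a product of Lie algebras `sl(N)`, and `H_1(A, ℂ)` is a sum of
   copies of the standard representations and their duals (`S_ADB`). An invariant form in `2 m`
   variables is annihilated by the product of the `gl(N)` if `m` is as in 1 (`S_BAL`). By the
   first fundamental theorem it is a combination of products of contractions (`S_CORE`, `S_BR`),
   and these are given by endomorphisms of `A`. This is a statement over `ℚ` (`S_DESC`).
3. In the case 2 the centre of the Lie algebra of `A'` annihilates all de Rham-Betti classes on `A'`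
   (`AbVar.centre_le`), so the elements `x ∈ F` with `x̄ = -x` are in `𝔩`, and `𝔩` contains the Lie algebra
   of the full unitary group of `B`; now the first fundamental theorem for products of general linear
   groups applies in all degrees (`S_COREG`, `S_BRG`).
-/

open Module Matrix Pool.Agent.Y102 Pool.Agent.W516.DR Pool.Agent.H204R3.GP

noncomputable section

namespace Pool.Agent.Results.MP_bf54cf_ag.PowersPrimePowerDegree

variable {g : ℕ} (A : AbVar g)

/-! ### Abelian varieties of unitary type -/

/-- `P` is an endomorphism of `A` (up to isogeny), in terms of its action on `H_1(A, ℚ)`: it respects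
the de Rham structure. (By the theorem of Bost, which is proved in `Pool.Agent.Y102.AbVar.hodge_end`,
these are the elements of `End(A) ⊗ ℚ`.) -/
def IsEndo (P : Module.End ℚ A.H1) : Prop := IsDeRhamBettiEnd QBar A.dR P

/-- The endomorphism `X` of `H_1(A, ℚ)` commutes with the endomorphisms of `A`. -/
def Commutes (X : Module.End ℚ A.H1) : Prop := ∀ P, IsEndo A P → X * P = P * X

/-- `X` is a polynomial in `z`. -/
def IsPolynomial (z X : Module.End ℚ A.H1) : Prop := ∃ q : Polynomial ℚ, X = Polynomial.aeval z q

/-- `X` is skew-symmetric for the polarization. -/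
def IsSkewSymmetric (X : Module.End ℚ A.H1) : Prop := ∀ u v, A.om (X u) v + A.om u (X v) = 0

/-- The centre of the algebra of the endomorphisms is the field `ℚ[z]`, and `z` is skew-symmetric. -/
structure CentreField (z : Module.End ℚ A.H1) : Prop where
  endo : IsEndo A z
  central : Commutes A z
  generates : ∀ P, IsEndo A P → Commutes A P → IsPolynomial A z P
  skew : IsSkewSymmetric A z
  nonzero : z ≠ 0
  /-- the nonzero elements of `ℚ[z]` are injective -/
  field : ∀ X, IsPolynomial A z X → X ≠ 0 → Function.Injective X

/-- The commutant of the endomorphisms is of dimension `N ^ 2` over `ℚ[z]`. -/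
def HasDegree (z : Module.End ℚ A.H1) (N : ℕ) : Prop :=
  Set.finrank ℚ {X | Commutes A X} = N ^ 2 * Set.finrank ℚ {X | IsPolynomial A z X}

/-- `x` is an eigenvector of `z` for the eigenvalue `i a` (or zero); here `H_1(A, ℝ) = ℂ ^ g` is the
tangent space, and `A.ext z` is the real linear extension of `z`. -/
def Eigen (z : Module.End ℚ A.H1) (a : ℝ) (x : Fin g → ℂ) : Prop :=
  A.ext z x = ((a : ℂ) * Complex.I) • x

/-- `i a` is an eigenvalue of `z` on the tangent space. -/
def IsEigenvalue (z : Module.End ℚ A.H1) (a : ℝ) : Prop := ∃ x, x ≠ 0 ∧ Eigen A z a x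

/-- The nonempty set `S` represents the indefinite places: `± S` is the set of the numbers `a` such
that `i a` and `- i a` are eigenvalues of `z` on the tangent space. -/
structure Places (z : Module.End ℚ A.H1) (S : Finset ℝ) : Prop where
  nonempty : S.Nonempty
  disjoint : ∀ a ∈ S, -a ∉ S
  indefinite : ∀ a : ℝ, (a ∈ S ∨ -a ∈ S) ↔ (IsEigenvalue A z a ∧ IsEigenvalue A z (-a))

/-- **The separation.** If the subalgebra `B₁` generates together with `z` the algebra `B` of all
endomorphisms which commute with the endomorphisms of `A`, then `B₁` contains a polynomial in `z`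
which separates the numbers `i a` and `i b`. -/
def Separates (z : Module.End ℚ A.H1) (a b : ℝ) : Prop :=
  ∀ B₁ : Subalgebra ℚ (Module.End ℚ A.H1), (∀ X ∈ B₁, Commutes A X) →
    (∀ X, Commutes A X → X ∈ Algebra.adjoin ℚ ((B₁ : Set (Module.End ℚ A.H1)) ∪ {z})) →
    ∃ q : Polynomial ℚ, Polynomial.aeval z q ∈ B₁ ∧
      Polynomial.aeval ((a : ℂ) * Complex.I) q ≠ Polynomial.aeval ((b : ℂ) * Complex.I) q

/-- The degree over `ℚ` of the field `F = ℚ[z]`. -/
def centreDegree (z : Module.End ℚ A.H1) : ℕ := Set.finrank ℚ {X | IsPolynomial A z X}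

/-- `φ` is a representation by rational matrices with `r` rows of the algebra `B` of the endomorphisms
of `H_1(A, ℚ)` which commute with the endomorphisms of `A`. -/
structure IsRepresentation {r : ℕ} (φ : Module.End ℚ A.H1 → Matrix (Fin r) (Fin r) ℚ) : Prop where
  add : ∀ X Y, Commutes A X → Commutes A Y → φ (X + Y) = φ X + φ Y
  mul : ∀ X Y, Commutes A X → Commutes A Y → φ (X * Y) = φ X * φ Y
  one : φ 1 = 1

/-- **The exponent** of the division algebra `B` over `F = ℚ[z]` is a multiple of `q`: if there are `k`
pairwise commuting representations of `B`, which agree on `z`, so on `F`, in a vector space of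
dimension `r`, `0 < r ≤ q ^ k [F : ℚ]` (it is a vector space over `F` of dimension at most `q ^ k`, and
a representation of the tensor product over `F` of `k` copies of `B`, which is then a matrix
algebra over `F`), then `q` divides `k`. If `q` is the degree of `B`, this is always true, by
the theorem of Albert, Brauer, Hasse and Noether. -/
def HasExponent (z : Module.End ℚ A.H1) (q : ℕ) : Prop :=
  ∀ k r : ℕ, 0 < k → 0 < r → r ≤ q ^ k * centreDegree A z →
    ∀ φ : Fin k → (Module.End ℚ A.H1 → Matrix (Fin r) (Fin r) ℚ),
    (∀ i, IsRepresentation A (φ i)) →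
    (∀ i j, i ≠ j → ∀ X Y, Commutes A X → Commutes A Y → φ i X * φ j Y = φ j Y * φ i X) →
    (∀ i j, φ i z = φ j z) → q ∣ k

/-- **Abelian varieties of unitary type given by division algebras of prime power degree**: the
centre of the algebra of the endomorphisms is the field `F = ℚ[z]`, `z` skew-symmetric, the commutant
`B` of the endomorphisms is a division algebra over `F`, of degree `N`, a power of a prime number, and
of exponent `N` (always true); `S` is the set of the indefinite places, and `± i a` and `± i b` are separated for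
different `a`, `b` in `S`. -/
structure DivisionType (z : Module.End ℚ A.H1) (S : Finset ℝ) (N : ℕ) : Prop where
  centre : CentreField A z
  degree : HasDegree A z N
  places : Places A z S
  primePower : IsPrimePow N
  division : ∀ X, Commutes A X → X ≠ 0 → Function.Injective X
  exponent : HasExponent A z N
  separated : ∀ a b : ℝ, (a ∈ S ∨ -a ∈ S) → (b ∈ S ∨ -b ∈ S) → a ≠ b → a ≠ -b →
    Separates A z a b

/-! ### The centre of the Lie algebra of the Hodge group -/

/-- The multilinear forms in `2m` variables in the rational homology. -/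
abbrev Form (m : ℕ) : Type := MultilinearMap ℚ (fun _ : Fin m × Fin 2 => A.H1) ℚ

/-- The endomorphism `X` annihilates the form `φ` (as a derivation). -/
def Annihilates {m : ℕ} (X : Module.End ℚ A.H1) (φ : Form A m) : Prop :=
  ∀ v, ∑ k, φ (Function.update v k (X (v k))) = 0

/-- `X` is in the Lie algebra `𝔤` of the Hodge group: it annihilates all classes in
`H^1(A) ^ {⊗ 2m} (m)` that are Hodge classes and de Rham-Betti classes. -/
def InLie (X : Module.End ℚ A.H1) : Prop :=
  ∀ (m : ℕ) (φ : Form A m), IsHodgeTensor (A.per : A.H1 →+ (Fin g → ℂ)) φ →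
    IsDeRhamBettiForm QBar A.dR (2 * Real.pi * Complex.I) m φ → Annihilates A X φ

/-- `X` is an element of the centre of `𝔤`. -/
def InCentre (X : Module.End ℚ A.H1) : Prop := InLie A X ∧ ∀ Y, InLie A Y → Y * X = X * Y

/-- The algebra of the endomorphisms of `H_1(A, ℂ)`, as matrices for the basis of the lattice. -/
def toC (X : Module.End ℚ A.H1) : Matrix (Fin (2 * g)) (Fin (2 * g)) ℂ :=
  Matrix.of fun i j => (X (Pi.single j 1) i : ℂ)

/-- The endomorphisms which commute with `X` and with the derived algebra of `𝔤` commute with the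
centre of `𝔤`. -/
def Generates (X : Module.End ℚ A.H1) : Prop :=
  ∀ T : Module.End ℚ A.H1,
    (∀ Y, InLie A Y → ∀ Z, InLie A Z → T * (Y * Z - Z * Y) = (Y * Z - Z * Y) * T) →
    T * X = X * T → ∀ Z, InCentre A Z → T * Z = Z * T

/-- All relations `∑ i, x i = 0` between eigenvalues of `X` imply the relation `∑ i, y i = 0` between
the eigenvalues of `Y` for the same eigenvectors. -/
def RelationsOf (X Y : Module.End ℚ A.H1) : Prop :=
  ∀ (r : ℕ) (v : Fin r → Fin (2 * g) → ℂ) (x y : Fin r → ℂ),
    (∀ i, v i ≠ 0 ∧ Matrix.mulVec (toC A X) (v i) = x i • v i ∧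
      Matrix.mulVec (toC A Y) (v i) = y i • v i) → ∑ i, x i = 0 → ∑ i, y i = 0

/-- The centre of `𝔤` is rigid: the relations between the eigenvalues of a generating element of the
centre hold for all elements of the centre. -/
def RigidCentre : Prop :=
  ∀ X, InCentre A X → Generates A X → ∀ Y, InCentre A Y → RelationsOf A X Y

/-- `A` is a factor of `A'` (up to isogeny): `π` is a homomorphism `A' → A`, in terms of the rational
homology, and `ι` is a section of `π`. -/
structure IsFactor {g' : ℕ} (A' : AbVar g') (ι : A.H1 →ₗ[ℚ] A'.H1) (π : A'.H1 →ₗ[ℚ] A.H1) :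
    Prop where
  section_ : ∀ v, π (ι v) = v
  homomorphism : ∃ a : Fin g ⊕ Fin g → Fin g' ⊕ Fin g' → QBar, ∀ i w, A.dR i (π w) =
    ∑ j, algebraMap QBar ℂ (a i j) * A'.dR j w

/-- `A` is a factor of an abelian variety `A'` such that the centre of the Lie algebra of the Hodge
group of `A'` is rigid and acts on `A` through all skew-symmetric elements of `ℚ[z]`. -/
def ControlledCentre (z : Module.End ℚ A.H1) : Prop :=
  ∃ (g' : ℕ) (A' : AbVar g') (ι : A.H1 →ₗ[ℚ] A'.H1) (π : A'.H1 →ₗ[ℚ] A.H1),
    IsFactor A A' ι π ∧ RigidCentre A' ∧
    ∀ x, IsPolynomial A z x → IsSkewSymmetric A x → ∃ X, InCentre A' X ∧ ∀ v, π (X (ι v)) = x v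

/-! ### The classes on the powers -/

/-- The inclusion of the rational homology of `A ^ n` in the tangent space. -/
def perPow (n : ℕ) : (Fin n → A.H1) →+ (Fin n → Fin g → ℂ) where
  toFun v j := A.per (v j)
  map_zero' := by
    funext j
    exact map_zero _
  map_add' u v := by
    funext j
    exact map_add _ _ _

/-- The basis of `H^1_dR(A ^ n / ℚ̄)`. -/
def dRPow (n : ℕ) (i : (Fin g ⊕ Fin g) × Fin n) : (Fin n → A.H1) →ₗ[ℚ] ℂ :=
  (A.dR i.1).comp (LinearMap.proj i.2)

/-- `H^1(A ^ n, ℚ) ^ {⊗ 2m}`: the multilinear forms in `2 m` variables in `H_1(A ^ n, ℚ)`. -/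
abbrev TensorPow (m n : ℕ) : Type := MultilinearMap ℚ (fun _ : Fin m × Fin 2 => Fin n → A.H1) ℚ

/-- `H^{2m}(A ^ n, ℚ)`: the alternating forms in `2 m` variables in `H_1(A ^ n, ℚ)`. -/
abbrev Cohomology (m n : ℕ) : Type := (Fin n → A.H1) [⋀^Fin m × Fin 2]→ₗ[ℚ] ℚ

/-- The bilinear forms on `H_1(A ^ n, ℚ)`. -/
abbrev Bilinear (n : ℕ) : Type := (Fin n → A.H1) →ₗ[ℚ] (Fin n → A.H1) →ₗ[ℚ] ℚ

/-- `φ` is a de Rham-Betti class in `H^1(A ^ n) ^ {⊗ 2m} (m)`. -/
def IsDRB {m n : ℕ} (φ : TensorPow A m n) : Prop :=
  IsDeRhamBettiForm QBar (dRPow A n) (2 * Real.pi * Complex.I) m φ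

/-- `φ` is an element of `H^{2m}_Gr(A ^ n, ℚ(m))`. -/
def IsGr {m n : ℕ} (φ : Cohomology A m n) : Prop := IsDRB A φ.toMultilinearMap

/-- `φ` is a linear combination of products of Hodge classes in `H^1(A ^ n) ^ {⊗ 2} (1)`, where the
`2 m` variables are distributed in some way. -/
def IsDecomposable {m n : ℕ} (φ : TensorPow A m n) : Prop :=
  φ ∈ Submodule.span ℚ {ψ | IsProductOfHodgeBilinear (perPow A n) ψ}

/-- The alternating bilinear form `b` is a Hodge class in `H^2(A ^ n) (1)`, that is (Lefschetz), a
rational multiple of the class of a divisor. -/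
def IsDivisorClass {n : ℕ} (b : Bilinear A n) : Prop :=
  IsHodgeBilinear (perPow A n) b ∧ ∀ u, b u u = 0

/-- The product of the values of the bilinear forms `b l` on the vectors `v (l, 0)`, `v (l, 1)`. -/
def prodAt {m n : ℕ} (b : Fin m → Bilinear A n) (v : Fin m × Fin 2 → Fin n → A.H1) : ℚ :=
  ∏ l, b l (v (l, 0)) (v (l, 1))

/-- The alternating form `ψ` is the product of the classes `b l` of degree two. -/
def IsProduct {m n : ℕ} (b : Fin m → Bilinear A n) (ψ : Cohomology A m n) : Prop :=
  ∀ v, ψ v = ∑ σ : Equiv.Perm (Fin m × Fin 2), ((Equiv.Perm.sign σ : ℤ) : ℚ) * prodAt A b (v ∘ σ)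

/-- `φ` is a linear combination of products of divisor classes. -/
def IsSumOfProducts {m n : ℕ} (φ : Cohomology A m n) : Prop :=
  φ ∈ Submodule.span ℚ {ψ | ∃ b : Fin m → Bilinear A n, (∀ l, IsDivisorClass A (b l)) ∧
    IsProduct A b ψ}

/-! ### The proof -/

variable {A}

theorem comm_iff (X : Module.End ℚ A.H1) : Commutes A X ↔ X ∈ N208.BT.CB A :=
  ⟨fun h P hP => h P (A.mem_EA.1 hP), fun h P hP => h P (A.mem_EA.2 hP)⟩

theorem mem_adjoin (z X : Module.End ℚ A.H1) :
    IsPolynomial A z X ↔ X ∈ (Algebra.adjoin ℚ {z}).toSubmodule := by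
  rw [Subalgebra.mem_toSubmodule, Algebra.adjoin_singleton_eq_range_aeval]
  exact ⟨fun ⟨q, hq⟩ => ⟨q, hq.symm⟩, fun ⟨q, hq⟩ => ⟨q, hq.symm⟩⟩

theorem deg_eq {z : Module.End ℚ A.H1} {N : ℕ} (h : HasDegree A z N) :
    finrank ℚ (N208.BT.CB A) = N ^ 2 * finrank ℚ (Algebra.adjoin ℚ {z}) := by
  have e1 : Submodule.span ℚ {X : Module.End ℚ A.H1 | Commutes A X} = N208.BT.CB A := by
    have h1 : {X : Module.End ℚ A.H1 | Commutes A X} = N208.BT.CB A := Set.ext fun X => comm_iff X
    rw [h1, Submodule.span_eq]
  have e2 : Submodule.span ℚ {X : Module.End ℚ A.H1 | IsPolynomial A z X} =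
      (Algebra.adjoin ℚ {z}).toSubmodule := by
    have h1 : {X : Module.End ℚ A.H1 | IsPolynomial A z X} =
        (Algebra.adjoin ℚ {z}).toSubmodule := Set.ext fun X => mem_adjoin z X
    rw [h1, Submodule.span_eq]
  have h1 := h
  unfold HasDegree Set.finrank at h1
  rw [e1, e2] at h1
  exact h1

theorem CentreField.surj {z : Module.End ℚ A.H1} (h : CentreField A z) : Function.Surjective z := by
  have h1 := h.field z ⟨Polynomial.X, by rw [Polynomial.aeval_X]⟩ h.nonzero
  exact LinearMap.injective_iff_surjective.1 h1

theorem CentreField.cancel {z : Module.End ℚ A.H1} (h : CentreField A z)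
    {X Y : Module.End ℚ A.H1} (e : X * z = Y * z) : X = Y := by
  refine LinearMap.ext fun v => ?_
  obtain ⟨w, rfl⟩ := h.surj v
  exact LinearMap.congr_fun e w

theorem DivisionType.toHF {z : Module.End ℚ A.H1} {S : Finset ℝ} {N : ℕ}
    (h : DivisionType A z S N) : N208.LC.HF A z N where
  mem := A.mem_EA.2 h.centre.endo
  cen := fun P hP => h.centre.central P (A.mem_EA.1 hP)
  skew := h.centre.skew
  ne := h.centre.nonzero
  field := fun q hq => h.centre.field _ ⟨q, rfl⟩ hq
  gen := fun P hP hc => h.centre.generates P (A.mem_EA.1 hP) fun Q hQ => hc Q (A.mem_EA.2 hQ)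
  deg := deg_eq h.degree

theorem Places.ne {z : Module.End ℚ A.H1} {S : Finset ℝ} (h : Places A z S) (hz : CentreField A z)
    {a : ℝ} (ha : a ∈ S) : a ≠ 0 := by
  rintro rfl
  exact h.disjoint 0 ha (by rwa [neg_zero])

theorem sep_of {z : Module.End ℚ A.H1} (hz : CentreField A z) {a b : ℝ} (h : Separates A z a b)
    (D₁ : Subalgebra ℚ (Module.End ℚ A.H1)) (h1 : ∀ X ∈ D₁, X ∈ N208.BT.CB A)
    (h2 : ∀ X ∈ N208.BT.CB A, ∃ X' ∈ Algebra.adjoin ℚ ((D₁ : Set (Module.End ℚ A.H1)) ∪ {z}),
      X * z = X' * z) :
    ∃ (q : Polynomial ℚ), ∃ X ∈ D₁, X * z = Polynomial.aeval z q * z ∧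
      Polynomial.aeval ((a : ℂ) * Complex.I) q ≠ Polynomial.aeval ((b : ℂ) * Complex.I) q := by
  obtain ⟨q, hq, hne⟩ := h D₁ (fun X hX => (comm_iff X).2 (h1 X hX)) fun X hX => by
    obtain ⟨X', hX', e⟩ := h2 X ((comm_iff X).1 hX)
    rw [hz.cancel e]
    exact hX'
  exact ⟨q, _, hq, rfl, hne⟩

theorem cdeg_eq {z : Module.End ℚ A.H1} (hz : CentreField A z) : centreDegree A z =
    finrank ℚ ((Algebra.adjoin ℚ {z}).toSubmodule.map (LinearMap.mulRight ℚ z)) := by
  have hinj : Function.Injective (LinearMap.mulRight ℚ z : Module.End ℚ (Module.End ℚ A.H1)) :=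
    fun X Y e => hz.cancel e
  have e2 : Submodule.span ℚ {X : Module.End ℚ A.H1 | IsPolynomial A z X} =
      (Algebra.adjoin ℚ {z}).toSubmodule := by
    have h1 : {X : Module.End ℚ A.H1 | IsPolynomial A z X} =
        (Algebra.adjoin ℚ {z}).toSubmodule := Set.ext fun X => mem_adjoin z X
    rw [h1, Submodule.span_eq]
  rw [(Submodule.equivMapOfInjective _ hinj _).finrank_eq.symm]
  unfold centreDegree Set.finrank
  rw [e2]

theorem DivisionType.toHL {z : Module.End ℚ A.H1} {S : Finset ℝ} {N : ℕ}
    (h : DivisionType A z S N) : N208.LC.HL A z S where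
  hg := by
    have hz := h.centre
    have hgen : ∀ P ∈ A.EA, (∀ Q ∈ A.EA, P * Q = Q * P) →
        ∃ q : Polynomial ℚ, P * z = Polynomial.aeval z q * z := by
      intro P hP hc
      obtain ⟨q, hq⟩ := hz.generates P (A.mem_EA.1 hP) fun Q hQ => hc Q (A.mem_EA.2 hQ)
      exact ⟨q, by rw [hq]⟩
    refine H943.DP.hg_ofq (q := N)
      { mem := A.mem_EA.2 hz.endo
        cen := fun P hP => hz.central P (A.mem_EA.1 hP)
        skew := hz.skew
        gen := hgen
        ne := fun a ha => h.places.ne hz ha
        e1 := fun a ha => ((h.places.indefinite a).1 (Or.inl ha)).1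
        e2 := fun a ha => ((h.places.indefinite a).1 (Or.inl ha)).2
        disj := h.places.disjoint
        sep := fun D₁ h2 h3 a b ha hb hab hab' =>
          sep_of hz (h.separated a b ha hb hab hab') D₁ h2 h3
        pd := ⟨h.primePower, fun X hX h0 v hv => ?_, ?_, ?_⟩ }
    · have h2 := h.division X ((comm_iff X).2 hX) fun h => h0 (by rw [h, zero_mul])
      have h3 : X (z v) = X 0 := by rw [hv, map_zero]
      exact h2 h3
    · have hinj : Function.Injective (LinearMap.mulRight ℚ z : Module.End ℚ (Module.End ℚ A.H1)) :=
        fun X Y e => hz.cancel e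
      rw [(Submodule.equivMapOfInjective _ hinj _).finrank_eq.symm,
        (Submodule.equivMapOfInjective _ hinj _).finrank_eq.symm]
      exact deg_eq h.degree
    · intro k r hk hr hle φ h1 h2 h3
      rw [← cdeg_eq hz] at hle
      exact h.exponent k r hk hr hle φ (fun i =>
        ⟨fun X Y hX hY => (h1 i).add X ((comm_iff X).1 hX) Y ((comm_iff Y).1 hY),
          fun X Y hX hY => (h1 i).mul X ((comm_iff X).1 hX) Y ((comm_iff Y).1 hY),
          (h1 i).one⟩)
        (fun i j hij X Y hX hY => h2 i j hij X ((comm_iff X).1 hX) Y ((comm_iff Y).1 hY)) h3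
  field := fun q hq => h.centre.field _ ⟨q, rfl⟩ hq
  ne := h.places.nonempty
  dfn := fun b hb hb' => (h.places.indefinite b).2 ⟨hb, hb'⟩

theorem ControlledCentre.mem {z : Module.End ℚ A.H1} (h : ControlledCentre A z)
    {q : Polynomial ℚ} (hq : IsSkewSymmetric A (Polynomial.aeval z q)) :
    Polynomial.aeval z q ∈ A.LA := by
  obtain ⟨g', A', ι, π, hf, hr, hc⟩ := h
  obtain ⟨X, hX, hX'⟩ := hc _ ⟨q, rfl⟩ hq
  have h1 : A'.CN ≤ A'.LA := A'.centre_le fun X hX hg Y hY => by
    refine dom_of_matrix (hr X ⟨hX.1, hX.2⟩ (fun T hT hTX Z hZ => ?_) Y ⟨hY.1, hY.2⟩)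
    exact hg T hT hTX Z ⟨hZ.1, hZ.2⟩
  exact N208.LC.mem_LA_of_fac ⟨hf.section_, hf.homomorphism⟩ (h1 ⟨hX.1, hX.2⟩) hX'

/-- **Theorem.** Let `A` be an abelian variety of unitary type given by a division algebra of prime
power degree `N` over a CM field. Let `m` be a natural number with `2 m < N`, or with `m < N` if `N` is odd; or let `m` be arbitrary and let the centre be
controlled. Then for all `n`

1. every de Rham-Betti class in `H^1(A ^ n) ^ {⊗ 2m} (m)` is a linear combination of products of Hodge
   classes of degree two;
2. every class in `H^{2m}_Gr(A ^ n, ℚ(m))` is a linear combination of products of divisor classes. -/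
theorem result {g : ℕ} (A : AbVar g) (z : Module.End ℚ A.H1) (S : Finset ℝ) (N : ℕ)
    (hA : DivisionType A z S N) (m n : ℕ)
    (hm : (2 * m < N ∨ (Odd N ∧ m < N)) ∨ ControlledCentre A z) :
    (∀ φ : TensorPow A m n, IsDRB A φ → IsDecomposable A φ) ∧
      ∀ φ : Cohomology A m n, IsGr A φ → IsSumOfProducts A φ := by
  have key : ∀ φ : MultilinearMap ℚ (fun _ : Fin m × Fin 2 => A.H1) ℚ,
      IsDeRhamBettiForm QBar A.dR tau m φ →
      φ ∈ Submodule.span ℚ {ψ | IsProductOfHodgeBilinear (A.per : A.H1 →+ (Fin g → ℂ)) ψ} := by
    intro φ hφ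
    rcases hm with hm | hm
    · exact N208.LC.fin_low hA.toHL hA.toHF hm hφ
    · exact N208.LC.fin_all N297.LCCOREG.main hA.toHL hA.toHF (fun q hq => hm.mem hq) hφ
  have h1 := fun φ hφ => N208.LC.main_pow (A := A) (m := m) (n := n) key φ hφ
  exact ⟨h1, fun φ hφ => N208.LC.alt_span φ (h1 _ hφ)⟩

end Pool.Agent.Results.MP_bf54cf_ag.PowersPrimePowerDegree
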