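import Pool.Agent.H845.CM.Dim

set_option autoImplicit false

/-!
# The period conjecture for cycles of codimension two on abelian varieties whose factors of type IV
# have complex multiplication

Let `A` be an abelian variety over the field `ℚ̄` of algebraic numbers. A de Rham-Betti class in
`H^4(A)(2)` is an alternating form `φ` with rational values in four variables in `H_1(A, ℚ)` such that
`(2 π i) ^ 2 φ` is a combination with algebraic coefficients of the products of the elements of
`H^1_dR(A / ℚ̄)`. Nothing is assumed about periods: `AbVar` is the description of an abelian variety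
over `ℚ̄` by theta functions (see `Pool/Graph/R_seed8/Y102/AVDefs.lean`, where it is explained why
every abelian variety has it).

Up to isogeny `A` is a product `A₀ × A₁`, where `A₀` has no simple factors of type IV and all simple
factors of `A₁` are of type IV (in the classification of Albert). The rational homology of `A₁` is the
span `V₁` of the images of the central endomorphisms of `A` which are skew-symmetric for the
polarization (`typeIVPart`).

**Theorem.** Assume that all simple factors of type IV have complex multiplication, and that `A₀` and
`A₁` have dimension at most four. Then every de Rham-Betti class `φ` in `H^4(A)(2)` is the sum of two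
de Rham-Betti classes `φ₀` and `w` such that

* `φ₀` is a Hodge class, and it is annihilated by all endomorphisms `X` of `H_1(A, ℚ)` which commute
  with the endomorphisms of `A` and are skew-symmetric for the polarization (the Lie algebra of the
  Lefschetz group);
* `w = 0`, or `A₁` has dimension four and the centre of `End(A₁) ⊗ ℚ` contains an imaginary
  quadratic field `K = ℚ(P)`, `P² = - r`, such that `w` is a Weil class of `A₁` for `K`, that is, `w` is
  the pull-back of a form on `V₁` which is linear over `K` in each variable in the sense of
  `w (P u₁, u₂, u₃, u₄) = w (u₁, P u₂, u₃, u₄) = ⋯`. Moreover `w` is a Hodge class if `K` acts on the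
  tangent space of `A₁` with the signature `(2, 2)`.

So all de Rham-Betti classes in `H^4(A)(2)` are Hodge classes if `dim A₁ ≤ 3`, or if there is no
imaginary quadratic field in the centre of `End(A₁) ⊗ ℚ` that acts on the tangent space with a
signature different from `(2, 2)`. This applies to all abelian fourfolds whose factors of type IV have
complex multiplication: to all abelian fourfolds with complex multiplication, by arbitrary fields and
with arbitrary types, and to all products of an arbitrary elliptic curve, abelian surface or abelian
threefold without factors of type IV and an abelian variety with complex multiplication; and to the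
products of dimension up to eight of two such varieties of dimension four. On abelian fourfolds all
Hodge classes are algebraic (Markman), so this gives `GPC ^ 2 (A)`, and `GPC ^ k (A)` for all `k`.
Nothing is assumed about the Hodge group or about Hodge classes (the theorem of Deligne is not used),
and there is no condition on the fields of complex multiplication.

## Proof

By the theorem of Schneider and Lang the Lie algebra `𝔥` of the endomorphisms that annihilate all de
Rham-Betti classes acts semisimply on `V = H_1(A, ℚ)` and has the commutant `End(A)`. The space
`V ⊗ ℂ` is the sum of the eigenspaces `U_χ` of the space `S` of the central skew-symmetric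
endomorphisms. On `U_χ`, `χ ≠ 0`, the Lie algebra acts by the scalars `χ`. As the commutant of `𝔥` is
`End(A)`, which commutes with `S`, the restrictions of different nonzero characters `χ` to `𝔥 ∩ S` are
different, and they are not zero (`sep`, `sep0`). Let `φ` be a form in four variables annihilated by
`𝔥`, with a nonzero value on four eigenvectors. Then the sum of the four characters is zero on
`𝔥 ∩ S`. It is zero on `S`, except possibly if `χ_i ≠ 0` for all four, and no two of them are opposite
(`weights`). In the exceptional case these four characters and their opposites are all nonzero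
characters with multiplicities (as `dim A₁ ≤ 4`), and all other such relations between four
characters are consequences of the trivial ones (`Chars.other`). So the values of `φ` on the
exceptional four vectors are separated from the others by the rational operators `R ∈ S`, which shows
that the sum of the four characters is a rational function on `S`, up to a factor. By the duality
given by the trace form it is given by an element `P` of `S`, whose eigenvalues are `± c` and `0`, and
the positivity of the Rosati involution gives `c² < 0` and `c² ∈ ℚ`. Then `w` is the multiple
`(16 c²)⁻¹ P P φ` of the second derivative of `φ`.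

The form `φ₀` is annihilated by `𝔥` and `S`. The components of `φ₀` with one or three variables in
`U_0` are zero, the components with two variables in `U_0` are given by bilinear forms annihilated by
`𝔥`, which are given by endomorphisms of `A`, and the component on `U_0` is treated by contraction
with the symplectic form if `dim A₀ ≤ 3` (`kill_small`: the contraction is injective on forms of degree
four on symplectic spaces of dimension at most six), and by the theorem on representations without
orthogonality defects of dimension eight, the representation theoretic part of the theorem on abelian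
fourfolds without factors of type IV of an earlier run, if `dim A₀ = 4` (`kill0`).
-/

open Module Pool.Agent.Y102 Pool.Agent.W516.DR Pool.Agent.H204R3.GP

noncomputable section

namespace Pool.Agent.Results.MP_bf54cf_ag.TypeIVPartCM

variable {g : ℕ} (A : AbVar g)

/-- The alternating forms in four variables in the rational homology: the elements of
`H^4(A, ℚ)`. -/
abbrev Form : Type := A.H1 [⋀^Fin 2 × Fin 2]→ₗ[ℚ] ℚ

/-- `φ` is a de Rham-Betti class in `H^4(A)(2)`. -/
def IsDRB (φ : Form A) : Prop :=
  IsDeRhamBettiForm QBar A.dR (2 * Real.pi * Complex.I) 2 φ.toMultilinearMap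

/-- `φ` is a Hodge class in `H^4(A)(2)`. -/
def IsHodge (φ : Form A) : Prop :=
  IsHodgeTensor (A.per : A.H1 →+ (Fin g → ℂ)) φ.toMultilinearMap

/-- The endomorphisms of `A`, up to isogeny: the endomorphisms of `H_1(A, ℚ)` which respect the
de Rham cohomology over the field of algebraic numbers. -/
def IsEndomorphism (P : Module.End ℚ A.H1) : Prop := IsDeRhamBettiEnd QBar A.dR P

/-- `X` commutes with the endomorphisms of `A`. -/
def Commutes (X : Module.End ℚ A.H1) : Prop := ∀ Q, IsEndomorphism A Q → X * Q = Q * X

/-- `P` is in the centre of the algebra of the endomorphisms of `A`. -/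
def IsCentral (P : Module.End ℚ A.H1) : Prop := IsEndomorphism A P ∧ Commutes A P

/-- `X` is skew-symmetric for the polarization `A.om`. -/
def IsSkewSymmetric (X : Module.End ℚ A.H1) : Prop :=
  ∀ u v, A.om (X u) v + A.om u (X v) = 0

/-- The rational homology of the part of type IV: the span of the images of the central
endomorphisms which are skew-symmetric for the polarization. (The centre is a product of totally real
fields and of fields with complex multiplication, on which the Rosati involution is the complex
conjugation, and the simple factors of `A` of type IV correspond to the fields of the second kind.) -/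
def typeIVPart : Submodule ℚ A.H1 :=
  Submodule.span ℚ {v | ∃ R, IsCentral A R ∧ IsSkewSymmetric A R ∧ ∃ u, v = R u}

/-- The simple factors of type IV have complex multiplication: the algebra of the endomorphisms of
the rational homology which commute with the endomorphisms of `A` acts on the part of type IV through
a commutative algebra. -/
def TypeIVPartHasCM : Prop :=
  ∀ X Y, Commutes A X → Commutes A Y → ∀ v ∈ typeIVPart A, X (Y v) = Y (X v)

/-- The endomorphism `X` annihilates the form `φ` (as a derivation). -/
def Annihilates (X : Module.End ℚ A.H1) (φ : Form A) : Prop :=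
  ∀ v, ∑ k, φ (Function.update v k (X (v k))) = 0

/-- `φ` is linear over the algebra generated by `P`, which acts on the variables with the square
`- r`. -/
def IsWeilFor (P : Module.End ℚ A.H1) (r : ℚ) (φ : Form A) : Prop :=
  (∀ v i j, φ (Function.update v i (P (v i))) = φ (Function.update v j (P (v j)))) ∧
    ∀ v i, φ (Function.update v i (P (P (v i)))) = -(r * φ v)

/-- `P` acts on the part of type IV as the square root of the negative rational number `- r`, and its
image is the part of type IV, which has dimension eight: so the centre of the algebra of the
endomorphisms of the part of type IV, an abelian variety of dimension four, contains the imaginary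
quadratic field `ℚ(P)`. -/
def GivesImaginaryQuadraticField (P : Module.End ℚ A.H1) (r : ℚ) : Prop :=
  IsCentral A P ∧ IsSkewSymmetric A P ∧ 0 < r ∧ finrank ℚ (typeIVPart A) = 8 ∧
    LinearMap.range P = typeIVPart A ∧ ∀ v ∈ typeIVPart A, P (P v) = -(r • v)

/-- The trace of `P` on the tangent space of `A` is zero (if `P` generates an imaginary quadratic
field then this says that the signature is `(2, 2)`). -/
def TraceZeroOnTangentSpace (P : Module.End ℚ A.H1) : Prop :=
  ∃ M : (Fin g → ℂ) →ₗ[ℂ] (Fin g → ℂ), (∀ v, M (A.per v) = A.per (P v)) ∧
    LinearMap.trace ℂ (Fin g → ℂ) M = 0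

theorem mem_ZA {R : Module.End ℚ A.H1} : R ∈ A.ZA ↔ IsCentral A R ∧ IsSkewSymmetric A R := by
  constructor
  · rintro ⟨h1, h2, h3⟩
    exact ⟨⟨A.mem_EA.1 h1, fun Q hQ => h3 Q (A.mem_EA.2 hQ)⟩, h2⟩
  · rintro ⟨⟨h1, h3⟩, h2⟩
    exact ⟨A.mem_EA.2 h1, h2, fun Q hQ => h3 Q (A.mem_EA.1 hQ)⟩

theorem typeIVPart_eq : typeIVPart A = Pool.Agent.H845.CM.V1 A := by
  unfold typeIVPart Pool.Agent.H845.CM.V1
  congr 1
  ext v
  constructor
  · rintro ⟨R, h1, h2, h3⟩
    exact ⟨R, (mem_ZA A).2 ⟨h1, h2⟩, h3⟩
  · rintro ⟨R, h1, h3⟩
    exact ⟨R, ((mem_ZA A).1 h1).1, ((mem_ZA A).1 h1).2, h3⟩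

/-- **The de Rham-Betti classes of degree four on the abelian varieties whose factors of type IV have
complex multiplication are sums of Hodge classes and of Weil classes.** -/
theorem result {g : ℕ} (A : AbVar g) (hCM : TypeIVPartHasCM A)
    (h1 : finrank ℚ (typeIVPart A) ≤ 8) (h0 : 2 * g ≤ finrank ℚ (typeIVPart A) + 8)
    (φ : Form A) (hφ : IsDRB A φ) :
    ∃ φ₀ w : Form A, φ = φ₀ + w ∧ IsDRB A φ₀ ∧ IsDRB A w ∧
      IsHodge A φ₀ ∧ (∀ X, IsSkewSymmetric A X → Commutes A X → Annihilates A X φ₀) ∧
      (w = 0 ∨ ∃ (P : Module.End ℚ A.H1) (r : ℚ), GivesImaginaryQuadraticField A P r ∧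
        IsWeilFor A P r w ∧ (TraceZeroOnTangentSpace A P → IsHodge A w)) := by
  have hA : Pool.Agent.H845.CM.CMIV A := by
    intro R hR X hX Y hY
    refine LinearMap.ext fun v => ?_
    have h2 := hCM X Y (fun Q hQ => (A.mem_EA.2 hQ) X hX) (fun Q hQ => (A.mem_EA.2 hQ) Y hY)
      (R v) (Submodule.subset_span ⟨R, ((mem_ZA A).1 hR).1, ((mem_ZA A).1 hR).2, v, rfl⟩)
    change X (Y (R v)) - Y (X (R v)) = 0
    rw [h2, sub_self]
  rw [typeIVPart_eq] at h1 h0
  obtain ⟨φ₀, w, e1, e2, e3, e4, e5, e6⟩ := Pool.Agent.H845.CM.main hA h1 h0 φ hφ
  refine ⟨φ₀, w, e1, e2, e3, e4, fun X hX hX' => e5 X hX fun Q hQ => hX' Q (A.mem_EA.1 hQ), ?_⟩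
  rcases e6 with e6 | ⟨P, r, hP, hr, hfin, hPP, hlin, hM⟩
  · exact Or.inl e6
  · have hsub : ∀ v ∈ Pool.Agent.H845.CM.V1 A, P (P v) = -(r • v) := by
      intro v hv
      unfold Pool.Agent.H845.CM.V1 at hv
      induction hv using Submodule.span_induction with
      | mem v hv =>
        obtain ⟨R, hR, u, rfl⟩ := hv
        exact LinearMap.congr_fun (hPP R hR) u
      | zero => simp
      | add x y _ _ hx hy => rw [map_add, map_add, hx, hy, smul_add, neg_add]
      | smul c x _ hx => rw [map_smul, map_smul, hx, smul_neg, smul_comm]
    refine Or.inr ⟨P, r, ⟨((mem_ZA A).1 hP).1, ((mem_ZA A).1 hP).2, hr, ?_, ?_, ?_⟩, hlin, ?_⟩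
    · rw [typeIVPart_eq]
      exact hfin
    · rw [typeIVPart_eq]
      apply le_antisymm
      · rintro _ ⟨u, rfl⟩
        exact Submodule.subset_span ⟨P, hP, u, rfl⟩
      · intro v hv
        have h2 := hsub v hv
        refine ⟨-(r⁻¹ • P v), ?_⟩
        rw [map_neg, map_smul, h2, smul_neg, neg_neg, smul_smul, inv_mul_cancel₀ hr.ne', one_smul]
    · rw [typeIVPart_eq]
      exact hsub
    · rintro ⟨M, hM1, hM2⟩
      exact hM M hM1 hM2

end Pool.Agent.Results.MP_bf54cf_ag.TypeIVPartCM
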